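import Mathlib

set_option autoImplicit false

namespace Pool.Agent.Results.MP_97ba4e_an.WeakNotNorm

/-- Truncated parabola. -/
noncomputable def w (u : ℝ) : ℝ := max 0 (1 - u ^ 2)

theorem w_nonneg (u : ℝ) : 0 ≤ w u := le_max_left _ _

theorem w_le_one (u : ℝ) : w u ≤ 1 := by
  unfold w; apply max_le (by norm_num); nlinarith [sq_nonneg u]

theorem w_in {u : ℝ} (h : |u| ≤ 1) : w u = 1 - u ^ 2 := by
  unfold w; apply max_eq_right
  have := abs_le.mp h
  nlinarith

theorem w_out {u : ℝ} (h : 1 ≤ |u|) : w u = 0 := by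
  unfold w; apply max_eq_left
  have h2 : 1 ≤ |u| ^ 2 := by nlinarith [abs_nonneg u]
  rw [sq_abs] at h2; linarith

theorem w_le_dist {u v : ℝ} (h : 1 ≤ |u|) : w v ≤ 2 * |u - v| := by
  rcases le_or_gt 1 |v| with hv | hv
  · rw [w_out hv]; positivity
  · rw [w_in hv.le]
    have h1 := abs_lt.mp hv
    rcases le_abs.mp h with hu | hu
    · rw [abs_of_nonneg (by linarith)]; nlinarith
    · rw [abs_of_nonpos (by linarith)]; nlinarith

theorem taylorB (u v : ℝ) :
    |w u ^ 2 - w v ^ 2 - (-4 * v * w v) * (u - v)| ≤ 12 * (u - v) ^ 2 := by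
  rcases le_or_gt 1 |v| with hv | hv
  · rw [w_out hv]
    rcases le_or_gt 1 |u| with hu | hu
    · rw [w_out hu]; simp; positivity
    · have h1 := w_le_dist (v := u) hv
      have h0 := w_nonneg u
      have h2 : w u ^ 2 ≤ 4 * (u - v) ^ 2 := by
        calc w u ^ 2 ≤ (2 * |v - u|) ^ 2 := pow_le_pow_left₀ h0 h1 2
          _ = 4 * (u - v) ^ 2 := by rw [mul_pow, sq_abs]; ring
      have h3 : w u ^ 2 - 0 ^ 2 - -4 * v * 0 * (u - v) = w u ^ 2 := by ring
      rw [h3, abs_of_nonneg (by positivity)]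
      nlinarith [sq_nonneg (u - v)]
  · rcases le_or_gt 1 |u| with hu | hu
    · rw [w_out hu]
      have h1 := w_le_dist (v := v) hu
      have h0 := w_nonneg v
      have h4 : |v| ≤ 1 := hv.le
      have hd := abs_nonneg (u - v)
      have e : (u - v) ^ 2 = |u - v| ^ 2 := (sq_abs _).symm
      rw [e]
      have h5 : |(0:ℝ) ^ 2 - w v ^ 2 - -4 * v * w v * (u - v)|
          ≤ w v ^ 2 + 4 * w v * |u - v| := by
        have e1 : (0:ℝ) ^ 2 - w v ^ 2 - -4 * v * w v * (u - v)
            = -(w v ^ 2) + 4 * v * w v * (u - v) := by ring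
        rw [e1]
        refine (abs_add_le _ _).trans ?_
        rw [abs_neg, abs_of_nonneg (by positivity : 0 ≤ w v ^ 2)]
        have e2 : |4 * v * w v * (u - v)| = 4 * |v| * w v * |u - v| := by
          rw [abs_mul, abs_mul, abs_mul, abs_of_nonneg h0]; norm_num
        rw [e2]
        have : 4 * |v| * w v * |u - v| ≤ 4 * 1 * w v * |u - v| := by gcongr
        linarith
      refine h5.trans ?_
      nlinarith
    · rw [w_in hu.le, w_in hv.le]
      have h1 := abs_lt.mp hu
      have h2 := abs_lt.mp hv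
      have e : (1 - u ^ 2) ^ 2 - (1 - v ^ 2) ^ 2 - -4 * v * (1 - v ^ 2) * (u - v)
          = (u - v) ^ 2 * (u ^ 2 + 2 * u * v + 3 * v ^ 2 - 2) := by ring
      rw [e, abs_mul, abs_of_nonneg (sq_nonneg _), mul_comm]
      apply mul_le_mul_of_nonneg_right _ (sq_nonneg _)
      rw [abs_le]; constructor <;> nlinarith

/-- The bump with index `n`. -/
noncomputable def Bn (n : ℕ) (s : ℝ) : ℝ := w (2 ^ (n + 4) * s - 4) ^ 2

/-- Its derivative. -/
noncomputable def Dn (n : ℕ) (s : ℝ) : ℝ :=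
  2 ^ (n + 4) * (-4 * (2 ^ (n + 4) * s - 4) * w (2 ^ (n + 4) * s - 4))

theorem K_ge (n : ℕ) : (16 : ℝ) ≤ 2 ^ (n + 4) := by
  have : (1 : ℝ) ≤ 2 ^ n := one_le_pow₀ (by norm_num)
  rw [pow_add]; linarith

theorem Bn_nonneg (n : ℕ) (s : ℝ) : 0 ≤ Bn n s := by unfold Bn; positivity

theorem Bn_le_one (n : ℕ) (s : ℝ) : Bn n s ≤ 1 := by
  unfold Bn; exact pow_le_one₀ (w_nonneg _) (w_le_one _)

theorem supp_range {n : ℕ} {s : ℝ} (h : w (2 ^ (n + 4) * s - 4) ≠ 0) :
    3 < 2 ^ (n + 4) * s ∧ 2 ^ (n + 4) * s < 5 := by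
  by_contra hc
  apply h
  apply w_out
  rw [not_and_or, not_lt, not_lt] at hc
  rcases hc with hc | hc
  · rw [abs_of_nonpos (by linarith)]; linarith
  · rw [abs_of_nonneg (by linarith)]; linarith

theorem supp_range' {n : ℕ} {s : ℝ} (h : w (2 ^ (n + 4) * s - 4) ≠ 0) : 0 < s ∧ s < 5 / 16 := by
  have h1 := supp_range h
  have h2 := K_ge n
  constructor
  · by_contra hs
    have : (2:ℝ) ^ (n + 4) * s ≤ 0 := by nlinarith
    linarith
  · by_contra hs
    have : (5:ℝ) ≤ 2 ^ (n + 4) * s := by nlinarith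
    linarith

theorem Dn_abs (n : ℕ) (s : ℝ) : |Dn n s| ≤ 4 * 2 ^ (n + 4) := by
  by_cases h : w (2 ^ (n + 4) * s - 4) = 0
  · unfold Dn; rw [h]; simp
  · have h1 := supp_range h
    have h2 := K_ge n
    unfold Dn
    rw [abs_mul, abs_of_nonneg (by positivity : (0:ℝ) ≤ 2 ^ (n + 4)), mul_comm]
    apply mul_le_mul_of_nonneg_right _ (by positivity)
    rw [abs_mul, abs_mul, abs_of_nonneg (w_nonneg _)]
    have h3 : |2 ^ (n + 4) * s - 4| ≤ 1 := by rw [abs_le]; constructor <;> linarith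
    have h4 := w_le_one (2 ^ (n + 4) * s - 4)
    have h5 := w_nonneg (2 ^ (n + 4) * s - 4)
    have h6 : |(-4:ℝ)| = 4 := by norm_num
    rw [h6]
    have h7 := abs_nonneg (2 ^ (n + 4) * s - 4)
    nlinarith

theorem taylor (n : ℕ) (s t : ℝ) :
    |Bn n s - Bn n t - Dn n t * (s - t)| ≤ 12 * (2 ^ (n + 4)) ^ 2 * (s - t) ^ 2 := by
  have h := taylorB (2 ^ (n + 4) * s - 4) (2 ^ (n + 4) * t - 4)
  unfold Bn Dn
  have e1 : w (2 ^ (n + 4) * s - 4) ^ 2 - w (2 ^ (n + 4) * t - 4) ^ 2 -
      2 ^ (n + 4) * (-4 * (2 ^ (n + 4) * t - 4) * w (2 ^ (n + 4) * t - 4)) * (s - t)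
      = w (2 ^ (n + 4) * s - 4) ^ 2 - w (2 ^ (n + 4) * t - 4) ^ 2 -
      -4 * (2 ^ (n + 4) * t - 4) * w (2 ^ (n + 4) * t - 4) *
        (2 ^ (n + 4) * s - 4 - (2 ^ (n + 4) * t - 4)) := by ring
  rw [e1]
  refine h.trans (le_of_eq ?_)
  ring

/-- The norm of the plane: `R s` is its value at `(1, s)`. -/
noncomputable def R (s : ℝ) : ℝ := if |s| ≤ 1 then 1 + s ^ 2 else 2 * |s|

/-- The quotient norm. -/
noncomputable def rho (a b : ℝ) : ℝ := if a = 0 then 2 * |b| else |a| * R (b / a)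

/-- The coordinates of the lifting. -/
noncomputable def gam (n : ℕ) (a b : ℝ) : ℝ := a * Bn n (b / a)

/-- Size of the admissible perturbation. -/
noncomputable def del (n : ℕ) : ℝ := 1 / (100 * (2 ^ (n + 4)) ^ 2)

theorem core {n : ℕ} {t τ : ℝ} (ht : |t| ≤ 1) (hτ : |τ| ≤ del n) (s : ℝ) :
    |1 - t ^ 2 + 2 * t * s + τ * (Bn n s - Bn n t - Dn n t * (s - t))| ≤ R s := by
  have hK := K_ge n
  set K : ℝ := 2 ^ (n + 4) with hKdef
  have hdel : del n * (100 * K ^ 2) = 1 := by
    unfold del; rw [← hKdef]; field_simp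
  have hdel0 : 0 < del n := by unfold del; positivity
  have hT := taylor n s t
  rw [← hKdef] at hT
  set D := Bn n s - Bn n t - Dn n t * (s - t) with hD
  have ht' := abs_le.mp ht
  -- product bound
  have hprod : ∀ c, |D| ≤ c → |τ * D| ≤ del n * c := by
    intro c hc
    rw [abs_mul]
    exact mul_le_mul hτ hc (abs_nonneg _) hdel0.le
  have hKK : 256 ≤ K ^ 2 := by nlinarith
  have hdsmall : del n ≤ 1 / 25600 := by
    have : del n * 25600 ≤ 1 := by nlinarith
    linarith
  by_cases hts : w (K * t - 4) = 0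
  · -- `t` outside the support
    have hBt : Bn n t = 0 := by unfold Bn; rw [← hKdef, hts]; norm_num
    have hDt : Dn n t = 0 := by unfold Dn; rw [← hKdef, hts]; ring
    have hDe : D = Bn n s := by rw [hD, hBt, hDt]; ring
    by_cases hss : w (K * s - 4) = 0
    · have hBs : Bn n s = 0 := by unfold Bn; rw [← hKdef, hss]; norm_num
      rw [hDe, hBs, mul_zero, add_zero]
      unfold R
      split_ifs with hs
      · have hs' := abs_le.mp hs
        rw [abs_le]; constructor <;> nlinarith [sq_nonneg (s + t), sq_nonneg (s - t)]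
      · push Not at hs
        rcases lt_abs.mp hs with h | h
        · rw [abs_of_pos (by linarith : 0 < s), abs_le]; constructor <;> nlinarith
        · rw [abs_of_neg (by linarith : s < 0), abs_le]; constructor <;> nlinarith
    · obtain ⟨hs0, hs1⟩ := supp_range' (by rw [← hKdef]; exact hss)
      have hRs : R s = 1 + s ^ 2 := by
        unfold R; rw [if_pos]; rw [abs_of_pos hs0]; linarith
      rw [hRs]
      have h1 : |τ * D| ≤ del n * (12 * K ^ 2 * (s - t) ^ 2) := hprod _ hT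
      have h2 : del n * (12 * K ^ 2 * (s - t) ^ 2) ≤ (s - t) ^ 2 := by
        have : del n * (12 * K ^ 2 * (s - t) ^ 2) = (del n * (100 * K ^ 2)) * (12 / 100)
            * (s - t) ^ 2 := by ring
        rw [this, hdel]; nlinarith [sq_nonneg (s - t)]
      have h3 : |τ * D| ≤ del n * 1 := hprod _ (by
        rw [hDe, abs_of_nonneg (Bn_nonneg _ _)]; exact Bn_le_one _ _)
      have h1' := abs_le.mp h1
      have h3' := abs_le.mp h3
      rw [abs_le]; constructor
      · nlinarith
      · nlinarith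
  · obtain ⟨ht0, ht1⟩ := supp_range' (by rw [← hKdef]; exact hts)
    by_cases hs : |s| ≤ 1
    · have hRs : R s = 1 + s ^ 2 := by unfold R; rw [if_pos hs]
      rw [hRs]
      have hs' := abs_le.mp hs
      have h1 : |τ * D| ≤ del n * (12 * K ^ 2 * (s - t) ^ 2) := hprod _ hT
      have h2 : del n * (12 * K ^ 2 * (s - t) ^ 2) = 12 / 100 * (s - t) ^ 2 := by
        have : del n * (12 * K ^ 2 * (s - t) ^ 2) = (del n * (100 * K ^ 2)) * (12 / 100)
            * (s - t) ^ 2 := by ring
        rw [this, hdel]; ring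
      rw [h2] at h1
      have h1' := abs_le.mp h1
      rw [abs_le]; constructor
      · nlinarith [sq_nonneg (s + t)]
      · nlinarith [sq_nonneg (s - t)]
    · have hRs : R s = 2 * |s| := by unfold R; rw [if_neg hs]
      rw [hRs]
      push Not at hs
      have hsout : w (K * s - 4) = 0 := by
        by_contra hne
        obtain ⟨h1, h2⟩ := supp_range' (by rw [← hKdef]; exact hne)
        rw [abs_of_pos h1] at hs; linarith
      have hBs : Bn n s = 0 := by unfold Bn; rw [← hKdef, hsout]; norm_num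
      have hDb : |D| ≤ 1 + 8 * K * |s| := by
        rw [hD, hBs]
        have e : 0 - Bn n t - Dn n t * (s - t) = -(Bn n t + Dn n t * (s - t)) := by ring
        rw [e, abs_neg]
        refine (abs_add_le _ _).trans ?_
        have h1 : |Bn n t| ≤ 1 := by
          rw [abs_of_nonneg (Bn_nonneg _ _)]; exact Bn_le_one _ _
        have h2 : |Dn n t * (s - t)| ≤ 4 * K * (2 * |s|) := by
          rw [abs_mul]
          apply mul_le_mul (Dn_abs n t) _ (abs_nonneg _) (by positivity)
          have : |s - t| ≤ |s| + |t| := abs_sub _ _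
          rw [abs_of_pos ht0] at this
          linarith
        linarith
      have h1 := hprod _ hDb
      have h2 : del n * (1 + 8 * K * |s|) ≤ |s| / 8 := by
        have h3 : del n * K ^ 2 = 1 / 100 := by linarith
        have h4 : del n * K ≤ 1 / 1600 := by nlinarith
        have h5 : del n * (1 + 8 * K * |s|) = del n + 8 * (del n * K) * |s| := by ring
        rw [h5]
        have h6 : 8 * (del n * K) * |s| ≤ 8 * (1 / 1600) * |s| := by gcongr
        linarith
      have h7 : |1 - t ^ 2 + 2 * t * s| ≤ 1 + (5 / 8) * |s| := by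
        refine (abs_add_le _ _).trans ?_
        have h8 : |1 - t ^ 2| ≤ 1 := by rw [abs_le]; constructor <;> nlinarith
        have h9 : |2 * t * s| ≤ (5 / 8) * |s| := by
          rw [abs_mul]
          apply mul_le_mul_of_nonneg_right _ (abs_nonneg _)
          rw [abs_of_pos (by linarith)]; linarith
        linarith
      refine (abs_add_le _ _).trans ?_
      linarith

theorem R_ge_one (s : ℝ) : 1 ≤ R s := by
  unfold R; split_ifs with h
  · nlinarith [sq_nonneg s]
  · push Not at h; linarith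

theorem R_ge_two (s : ℝ) : 2 * |s| ≤ R s := by
  unfold R; split_ifs with h
  · rw [← sq_abs s]; nlinarith [sq_nonneg (|s| - 1)]
  · exact le_rfl

theorem abs_a_le (a b : ℝ) : |a| ≤ rho a b := by
  unfold rho; split_ifs with h
  · rw [h]; simp
  · have := R_ge_one (b / a); nlinarith [abs_nonneg a]

theorem abs_b_le (a b : ℝ) : 2 * |b| ≤ rho a b := by
  unfold rho; split_ifs with h
  · exact le_rfl
  · have h1 := R_ge_two (b / a)
    have h2 : |a| * (2 * |b / a|) ≤ |a| * R (b / a) := mul_le_mul_of_nonneg_left h1 (abs_nonneg _)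
    have h3 : |a| * (2 * |b / a|) = 2 * |b| := by
      rw [abs_div]; have := abs_pos.mpr h; field_simp
    linarith

theorem abs_gam_le (n : ℕ) (a b : ℝ) : |gam n a b| ≤ |a| := by
  unfold gam
  rw [abs_mul, abs_of_nonneg (Bn_nonneg _ _)]
  have := Bn_le_one n (b / a)
  nlinarith [abs_nonneg a]

theorem Bn_zero_of_ge {n : ℕ} {s : ℝ} (h : 1 ≤ |s|) : Bn n s = 0 := by
  unfold Bn
  by_cases hw : w (2 ^ (n + 4) * s - 4) = 0
  · rw [hw]; norm_num
  · obtain ⟨h1, h2⟩ := supp_range' hw
    rw [abs_of_pos h1] at h; linarith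

theorem Dn_zero_of_ge {n : ℕ} {s : ℝ} (h : 1 ≤ |s|) : Dn n s = 0 := by
  unfold Dn
  by_cases hw : w (2 ^ (n + 4) * s - 4) = 0
  · rw [hw]; ring
  · obtain ⟨h1, h2⟩ := supp_range' hw
    rw [abs_of_pos h1] at h; linarith

theorem Bn_zero (n : ℕ) : Bn n 0 = 0 := by
  unfold Bn
  by_cases hw : w (2 ^ (n + 4) * 0 - 4) = 0
  · rw [hw]; norm_num
  · obtain ⟨h1, h2⟩ := supp_range' hw
    linarith

/-- The admissible functionals `(a, b, g) ↦ e1 a + e2 b + τ g_n`. -/
structure Adm where
  e1 : ℝ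
  e2 : ℝ
  τ : ℝ
  n : ℕ
  hτ : |τ| ≤ 1
  h : ∀ a b, |e1 * a + e2 * b + τ * gam n a b| ≤ rho a b

noncomputable def admA : Adm where
  e1 := 1
  e2 := 0
  τ := 0
  n := 0
  hτ := by simp
  h a b := by simpa using abs_a_le a b

noncomputable def admB : Adm where
  e1 := 0
  e2 := 1
  τ := 0
  n := 0
  hτ := by simp
  h a b := by
    have := abs_b_le a b
    have h2 : |0 * a + 1 * b + 0 * gam 0 a b| = |b| := by congr 1; ring
    rw [h2]; linarith [abs_nonneg b]

noncomputable def admG (n : ℕ) : Adm where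
  e1 := 0
  e2 := 0
  τ := 1
  n := n
  hτ := by simp
  h a b := by
    have h2 : |0 * a + 0 * b + 1 * gam n a b| = |gam n a b| := by congr 1; ring
    rw [h2]; exact (abs_gam_le n a b).trans (abs_a_le a b)

instance : Nonempty Adm := ⟨admA⟩

theorem del_le_one (n : ℕ) : del n ≤ 1 := by
  unfold del
  have := K_ge n
  rw [div_le_one (by positivity)]
  nlinarith

theorem del_pos (n : ℕ) : 0 < del n := by unfold del; positivity

theorem e2_bound {n : ℕ} {t τ : ℝ} (ht : |t| ≤ 1) (hτ : |τ| ≤ del n) :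
    |2 * t - τ * Dn n t| ≤ 2 := by
  have ht' := abs_le.mp ht
  by_cases hw : w (2 ^ (n + 4) * t - 4) = 0
  · have : Dn n t = 0 := by unfold Dn; rw [hw]; ring
    rw [this, abs_le]; constructor <;> linarith
  · obtain ⟨h1, h2⟩ := supp_range' hw
    have h3 := Dn_abs n t
    have h4 : |τ * Dn n t| ≤ del n * (4 * 2 ^ (n + 4)) := by
      rw [abs_mul]; exact mul_le_mul hτ h3 (abs_nonneg _) (del_pos n).le
    have h5 : del n * (4 * 2 ^ (n + 4)) ≤ 1 := by
      have hK := K_ge n
      unfold del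
      rw [div_mul_eq_mul_div, one_mul, div_le_one (by positivity)]
      nlinarith
    have h6 := abs_le.mp (h4.trans h5)
    rw [abs_le]; constructor <;> linarith

noncomputable def admT (n : ℕ) (t τ : ℝ) (ht : |t| ≤ 1) (hτ : |τ| ≤ del n) : Adm where
  e1 := 1 - t ^ 2 - τ * (Bn n t - Dn n t * t)
  e2 := 2 * t - τ * Dn n t
  τ := τ
  n := n
  hτ := hτ.trans (del_le_one n)
  h a b := by
    by_cases ha : a = 0
    · have e : (1 - t ^ 2 - τ * (Bn n t - Dn n t * t)) * a + (2 * t - τ * Dn n t) * b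
          + τ * gam n a b = (2 * t - τ * Dn n t) * b := by
        unfold gam; rw [ha]; ring
      rw [e, abs_mul]
      unfold rho; rw [if_pos ha]
      exact mul_le_mul_of_nonneg_right (e2_bound ht hτ) (abs_nonneg _)
    · have e : (1 - t ^ 2 - τ * (Bn n t - Dn n t * t)) * a + (2 * t - τ * Dn n t) * b
          + τ * gam n a b = a * (1 - t ^ 2 + 2 * t * (b / a) +
            τ * (Bn n (b / a) - Bn n t - Dn n t * (b / a - t))) := by
        unfold gam; field_simp; ring
      rw [e, abs_mul]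
      unfold rho; rw [if_neg ha]
      exact mul_le_mul_of_nonneg_left (core ht hτ _) (abs_nonneg _)

/-- The space `ℝ × ℝ × c₀₀`. -/
def E : Type := ℝ × ℝ × (ℕ →₀ ℝ)

noncomputable instance : AddCommGroup E := inferInstanceAs (AddCommGroup (ℝ × ℝ × (ℕ →₀ ℝ)))
noncomputable instance : Module ℝ E := inferInstanceAs (Module ℝ (ℝ × ℝ × (ℕ →₀ ℝ)))

/-- Constructor. -/
def mk (a b : ℝ) (g : ℕ →₀ ℝ) : E := (a, b, g)

/-- Coordinates. -/
noncomputable def ca : E →ₗ[ℝ] ℝ := LinearMap.fst ℝ ℝ (ℝ × (ℕ →₀ ℝ))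
noncomputable def cb : E →ₗ[ℝ] ℝ := (LinearMap.fst ℝ ℝ (ℕ →₀ ℝ)).comp
  (LinearMap.snd ℝ ℝ (ℝ × (ℕ →₀ ℝ)))
noncomputable def cg : E →ₗ[ℝ] (ℕ →₀ ℝ) := (LinearMap.snd ℝ ℝ (ℕ →₀ ℝ)).comp
  (LinearMap.snd ℝ ℝ (ℝ × (ℕ →₀ ℝ)))

@[simp] theorem ca_mk (a b : ℝ) (g : ℕ →₀ ℝ) : ca (mk a b g) = a := rfl
@[simp] theorem cb_mk (a b : ℝ) (g : ℕ →₀ ℝ) : cb (mk a b g) = b := rfl
@[simp] theorem cg_mk (a b : ℝ) (g : ℕ →₀ ℝ) : cg (mk a b g) = g := rfl

theorem mk_eta (x : E) : mk (ca x) (cb x) (cg x) = x := rfl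

theorem E_ext {x y : E} (h1 : ca x = ca y) (h2 : cb x = cb y) (h3 : cg x = cg y) : x = y := by
  rw [← mk_eta x, ← mk_eta y, h1, h2, h3]

/-- Evaluation of an admissible functional. -/
noncomputable def ev (i : Adm) (x : E) : ℝ := i.e1 * ca x + i.e2 * cb x + i.τ * cg x i.n

theorem ev_add (i : Adm) (x y : E) : ev i (x + y) = ev i x + ev i y := by
  unfold ev; simp only [map_add, Finsupp.add_apply]; ring

theorem ev_smul (i : Adm) (c : ℝ) (x : E) : ev i (c • x) = c * ev i x := by
  unfold ev; simp only [map_smul, Finsupp.smul_apply, smul_eq_mul]; ring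

theorem e1_le (i : Adm) : |i.e1| ≤ 1 := by
  have h := i.h 1 0
  have e : i.e1 * 1 + i.e2 * 0 + i.τ * gam i.n 1 0 = i.e1 := by
    unfold gam; rw [zero_div, Bn_zero]; ring
  rw [e] at h
  have : rho 1 0 = 1 := by unfold rho R; simp
  linarith

theorem e2_le (i : Adm) : |i.e2| ≤ 2 := by
  have h := i.h 0 1
  have e : i.e1 * 0 + i.e2 * 1 + i.τ * gam i.n 0 1 = i.e2 := by
    unfold gam; ring
  rw [e] at h
  have : rho 0 1 = 2 := by unfold rho; simp
  linarith

theorem ev_bound (i : Adm) (x : E) {M : ℝ} (hM : ∀ n, |cg x n| ≤ M) :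
    |ev i x| ≤ |ca x| + 2 * |cb x| + M := by
  unfold ev
  refine (abs_add_le _ _).trans ?_
  refine add_le_add ((abs_add_le _ _).trans (add_le_add ?_ ?_)) ?_
  · rw [abs_mul]; have := e1_le i; nlinarith [abs_nonneg (ca x)]
  · rw [abs_mul]; have := e2_le i; nlinarith [abs_nonneg (cb x)]
  · rw [abs_mul]; have := i.hτ; have := hM i.n; nlinarith [abs_nonneg (cg x i.n), abs_nonneg i.τ]

theorem exists_M (g : ℕ →₀ ℝ) : ∃ M : ℝ, ∀ n, |g n| ≤ M := by
  refine ⟨∑ n ∈ g.support, |g n|, fun n => ?_⟩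
  by_cases h : n ∈ g.support
  · exact Finset.single_le_sum (f := fun n => |g n|) (fun _ _ => abs_nonneg _) h
  · rw [Finsupp.notMem_support_iff.mp h, abs_zero]
    exact Finset.sum_nonneg fun _ _ => abs_nonneg _

theorem bdd (x : E) : BddAbove (Set.range fun i : Adm => |ev i x|) := by
  obtain ⟨M, hM⟩ := exists_M (cg x)
  refine ⟨|ca x| + 2 * |cb x| + M, ?_⟩
  rintro _ ⟨i, rfl⟩
  exact ev_bound i x hM

noncomputable instance : Norm E := ⟨fun x => ⨆ i : Adm, |ev i x|⟩

theorem norm_def (x : E) : ‖x‖ = ⨆ i : Adm, |ev i x| := rfl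

theorem ev_le_norm (i : Adm) (x : E) : |ev i x| ≤ ‖x‖ := le_ciSup (bdd x) i

theorem norm_le_of {x : E} {c : ℝ} (h : ∀ i, |ev i x| ≤ c) : ‖x‖ ≤ c := ciSup_le h

theorem coreE : NormedSpace.Core ℝ E where
  norm_nonneg x := (abs_nonneg _).trans (ev_le_norm admA x)
  norm_smul c x := by
    rw [norm_def, norm_def, Real.norm_eq_abs, Real.mul_iSup_of_nonneg (abs_nonneg _)]
    congr 1; ext i; rw [ev_smul, abs_mul]
  norm_triangle x y := by
    apply norm_le_of
    intro i
    rw [ev_add]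
    exact (abs_add_le _ _).trans (add_le_add (ev_le_norm i x) (ev_le_norm i y))
  norm_eq_zero_iff x := by
    constructor
    · intro h
      have hz : ∀ i, ev i x = 0 := fun i => by
        have := ev_le_norm i x
        rw [h] at this
        exact abs_eq_zero.mp (le_antisymm this (abs_nonneg _))
      refine E_ext ?_ ?_ ?_
      · have := hz admA; simpa [ev, admA] using this
      · have := hz admB; simpa [ev, admB] using this
      · ext n; have := hz (admG n); simpa [ev, admG] using this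
    · rintro rfl
      apply le_antisymm
      · apply norm_le_of; intro i; simp [ev]
      · exact (abs_nonneg _).trans (ev_le_norm admA 0)

noncomputable instance : NormedAddCommGroup E := NormedAddCommGroup.ofCore coreE
noncomputable instance : NormedSpace ℝ E := NormedSpace.ofCore coreE

theorem gam_finite (a b : ℝ) : (Function.support fun n => gam n a b).Finite := by
  by_cases hs : 0 < b / a
  · obtain ⟨N, hN⟩ := exists_nat_gt (5 / (b / a))
    refine (Set.finite_Iio N).subset ?_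
    intro n hn
    by_contra hc
    rw [Set.mem_Iio, not_lt] at hc
    apply hn
    simp only [gam]
    have hw : w (2 ^ (n + 4) * (b / a) - 4) = 0 := by
      by_contra hne
      have h1 := (supp_range hne).2
      have h2 : (5 : ℝ) < N * (b / a) := by rwa [div_lt_iff₀ hs] at hN
      have h3 : (N : ℝ) ≤ 2 ^ (n + 4) := by
        have h4 : (N : ℝ) ≤ n := by exact_mod_cast hc
        have h5 : (n : ℝ) < 2 ^ n := by exact_mod_cast Nat.lt_two_pow_self
        have h6 : (2:ℝ) ^ n ≤ 2 ^ (n + 4) := pow_le_pow_right₀ (by norm_num) (by omega)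
        linarith
      have h7 : (N : ℝ) * (b / a) ≤ 2 ^ (n + 4) * (b / a) :=
        mul_le_mul_of_nonneg_right h3 hs.le
      linarith
    unfold Bn; rw [hw]; ring
  · refine Set.Finite.subset Set.finite_empty ?_
    intro n hn
    apply hn
    simp only [gam]
    have hw : w (2 ^ (n + 4) * (b / a) - 4) = 0 := by
      by_contra hne
      exact hs (supp_range' hne).1
    unfold Bn; rw [hw]; ring

/-- The (nonlinear) lifting. -/
noncomputable def gamF (a b : ℝ) : ℕ →₀ ℝ :=
  Finsupp.ofSupportFinite (fun n => gam n a b) (gam_finite a b)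

@[simp] theorem gamF_apply (a b : ℝ) (n : ℕ) : gamF a b n = gam n a b := rfl

theorem norm_lift (a b : ℝ) : ‖mk a b (gamF a b)‖ ≤ rho a b := by
  apply norm_le_of
  intro i
  simpa [ev] using i.h a b

theorem sign_choice (p q : ℝ) : ∃ σ : ℝ, |σ| = 1 ∧ |p + σ * q| = |p| + |q| := by
  rcases le_total 0 (p * q) with h | h
  · refine ⟨1, by simp, ?_⟩
    rw [one_mul]
    rcases mul_nonneg_iff.mp h with ⟨h1, h2⟩ | ⟨h1, h2⟩
    · rw [abs_of_nonneg h1, abs_of_nonneg h2, abs_of_nonneg (by linarith)]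
    · rw [abs_of_nonpos h1, abs_of_nonpos h2, abs_of_nonpos (by linarith)]; ring
  · refine ⟨-1, by simp, ?_⟩
    rcases mul_nonpos_iff.mp h with ⟨h1, h2⟩ | ⟨h1, h2⟩
    · rw [abs_of_nonneg h1, abs_of_nonpos h2, abs_of_nonneg (by linarith)]; ring
    · rw [abs_of_nonpos h1, abs_of_nonneg h2, abs_of_nonpos (by linarith)]; ring

theorem norm_other {a b : ℝ} {v : ℕ →₀ ℝ} (h : v ≠ gamF a b) : rho a b < ‖mk a b v‖ := by
  obtain ⟨n, hn⟩ : ∃ n, v n ≠ gam n a b := by
    by_contra hc
    push Not at hc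
    exact h (Finsupp.ext hc)
  have hd := del_pos n
  -- the case where the functional `2 b` is used
  have key : gam n a b = 0 → rho a b = 2 * |b| → rho a b < ‖mk a b v‖ := by
    intro h0 h1
    obtain ⟨σ, hσ, hs⟩ := sign_choice (2 * b) (del n * v n)
    have hτ : |σ * del n| ≤ del n := by rw [abs_mul, hσ, one_mul, abs_of_pos hd]
    have hle := ev_le_norm (admT n 1 (σ * del n) (by simp) hτ) (mk a b v)
    have e : ev (admT n 1 (σ * del n) (by simp) hτ) (mk a b v) = 2 * b + σ * (del n * v n) := by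
      simp only [ev, admT, ca_mk, cb_mk, cg_mk]
      rw [Bn_zero_of_ge (by simp), Dn_zero_of_ge (by simp)]; ring
    rw [e, hs] at hle
    have h2 : 0 < |del n * v n| := abs_pos.mpr (mul_ne_zero hd.ne' (by rwa [h0] at hn))
    rw [abs_mul, abs_of_pos (by norm_num : (0:ℝ) < 2)] at hle
    rw [h1]; linarith
  by_cases ha : a = 0
  · apply key
    · unfold gam; rw [ha]; ring
    · unfold rho; rw [if_pos ha]
  by_cases hs : |b / a| ≤ 1
  · obtain ⟨σ, hσ, hsg⟩ := sign_choice (a * (1 + (b / a) ^ 2)) (del n * (v n - gam n a b))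
    have hτ : |σ * del n| ≤ del n := by rw [abs_mul, hσ, one_mul, abs_of_pos hd]
    have hle := ev_le_norm (admT n (b / a) (σ * del n) hs hτ) (mk a b v)
    have e : ev (admT n (b / a) (σ * del n) hs hτ) (mk a b v)
        = a * (1 + (b / a) ^ 2) + σ * (del n * (v n - gam n a b)) := by
      simp only [ev, admT, ca_mk, cb_mk, cg_mk, gam]
      field_simp
      ring
    rw [e, hsg] at hle
    have h2 : 0 < |del n * (v n - gam n a b)| :=
      abs_pos.mpr (mul_ne_zero hd.ne' (sub_ne_zero.mpr hn))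
    have h3 : rho a b = |a * (1 + (b / a) ^ 2)| := by
      unfold rho R; rw [if_neg ha, if_pos hs, abs_mul, abs_of_pos (by positivity : 0 < 1 + (b / a) ^ 2)]
    rw [h3]; linarith
  · apply key
    · unfold gam; rw [Bn_zero_of_ge (le_of_not_ge hs)]; ring
    · unfold rho R; rw [if_neg ha, if_neg hs, abs_div]
      have := abs_pos.mpr ha; field_simp

/-- The subspace `G`. -/
def G : Set E := {x | ca x = 0 ∧ cb x = 0}

/-- The metric projection. -/
noncomputable def proj (x : E) : E := mk 0 0 (cg x - gamF (ca x) (cb x))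

theorem proj_mem (x : E) : proj x ∈ G := ⟨rfl, rfl⟩

theorem sub_proj (x : E) : x - proj x = mk (ca x) (cb x) (gamF (ca x) (cb x)) := by
  refine E_ext ?_ ?_ ?_
  · rw [map_sub]; simp [proj]
  · rw [map_sub]; simp [proj]
  · rw [map_sub]; simp [proj]

theorem cheb (x : E) {g : E} (hg : g ∈ G) (hne : g ≠ proj x) : ‖x - proj x‖ < ‖x - g‖ := by
  rw [sub_proj]
  refine lt_of_le_of_lt (norm_lift _ _) ?_
  have e : x - g = mk (ca x) (cb x) (cg x - cg g) := by
    refine E_ext ?_ ?_ ?_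
    · rw [map_sub, hg.1]; simp
    · rw [map_sub, hg.2]; simp
    · rw [map_sub]; simp
  rw [e]
  apply norm_other
  intro h
  apply hne
  refine E_ext ?_ ?_ ?_
  · rw [hg.1]; rfl
  · rw [hg.2]; rfl
  · rw [proj, cg_mk, ← h]; abel

/-- Continuous coordinate functionals. -/
noncomputable def cA : E →L[ℝ] ℝ := ca.mkContinuous 1 (fun x => by
  have := ev_le_norm admA x
  simpa [ev, admA] using this)

noncomputable def cB : E →L[ℝ] ℝ := cb.mkContinuous 1 (fun x => by
  have := ev_le_norm admB x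
  simpa [ev, admB] using this)

theorem cA_apply (x : E) : cA x = ca x := rfl
theorem cB_apply (x : E) : cB x = cb x := rfl

theorem norm_cg_le {g : ℕ →₀ ℝ} (h : ∀ n, |g n| ≤ 1) : ‖mk 0 0 g‖ ≤ 1 := by
  apply norm_le_of
  intro i
  simp only [ev, ca_mk, cb_mk, cg_mk, mul_zero, zero_add]
  rw [abs_mul]
  have := i.hτ; have := h i.n
  nlinarith [abs_nonneg (g i.n), abs_nonneg i.τ]

/-- The embedding of `c₀₀`. -/
noncomputable def emb : (ℕ →₀ ℝ) →ₗ[ℝ] E where
  toFun g := mk 0 0 g
  map_add' g h := by refine E_ext ?_ ?_ ?_ <;> simp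
  map_smul' c g := by refine E_ext ?_ ?_ ?_ <;> simp

theorem emb_apply (g : ℕ →₀ ℝ) : emb g = mk 0 0 g := rfl

theorem summ (f : E →L[ℝ] ℝ) :
    Summable (fun n => |f (mk 0 0 (Finsupp.single n 1))|) := by
  refine summable_of_sum_le (c := ‖f‖) (fun _ => abs_nonneg _) ?_
  intro F
  set s : ℕ → ℝ := fun n => SignType.sign (f (mk 0 0 (Finsupp.single n 1))) with hs
  set g : ℕ →₀ ℝ := ∑ n ∈ F, Finsupp.single n (s n) with hg
  have hs1 : ∀ n, |s n| ≤ 1 := by
    intro n
    simp only [hs]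
    rcases lt_trichotomy (f (mk 0 0 (Finsupp.single n 1))) 0 with h | h | h
    · rw [sign_neg h]; simp
    · rw [h]; simp
    · rw [sign_pos h]; simp
  have hgn : ∀ n, |g n| ≤ 1 := by
    intro n
    rw [hg, Finsupp.finsetSum_apply]
    simp only [Finsupp.single_apply]
    rw [Finset.sum_ite_eq']
    split_ifs
    · exact hs1 n
    · simp
  have h1 : f (mk 0 0 g) = ∑ n ∈ F, |f (mk 0 0 (Finsupp.single n 1))| := by
    rw [← emb_apply, hg, map_sum, map_sum]
    refine Finset.sum_congr rfl fun n _ => ?_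
    have : Finsupp.single n (s n) = s n • Finsupp.single n (1 : ℝ) := by
      rw [Finsupp.smul_single, smul_eq_mul, mul_one]
    rw [this, map_smul, map_smul, emb_apply, smul_eq_mul, hs]
    exact sign_mul_self _
  rw [← h1]
  calc f (mk 0 0 g) ≤ |f (mk 0 0 g)| := le_abs_self _
    _ ≤ ‖f‖ * ‖mk 0 0 g‖ := f.le_opNorm _
    _ ≤ ‖f‖ * 1 := by gcongr; exact norm_cg_le hgn
    _ = ‖f‖ := mul_one _

/-- The function of the slope. -/
noncomputable def Phi (f : E →L[ℝ] ℝ) (s : ℝ) : ℝ :=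
  ∑' n, Bn n s * f (mk 0 0 (Finsupp.single n 1))

theorem Bn_cont (n : ℕ) : Continuous (Bn n) := by
  unfold Bn w; fun_prop

theorem Phi_term_le (f : E →L[ℝ] ℝ) (n : ℕ) (s : ℝ) :
    ‖Bn n s * f (mk 0 0 (Finsupp.single n 1))‖ ≤ |f (mk 0 0 (Finsupp.single n 1))| := by
  rw [norm_mul, Real.norm_eq_abs, Real.norm_eq_abs, abs_of_nonneg (Bn_nonneg _ _)]
  have := Bn_le_one n s
  nlinarith [abs_nonneg (f (mk 0 0 (Finsupp.single n 1)))]

theorem Phi_cont (f : E →L[ℝ] ℝ) : Continuous (Phi f) := by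
  unfold Phi
  exact continuous_tsum (fun n => (Bn_cont n).mul continuous_const) (summ f)
    (fun n s => Phi_term_le f n s)

theorem Phi_bdd (f : E →L[ℝ] ℝ) (s : ℝ) :
    |Phi f s| ≤ ∑' n, |f (mk 0 0 (Finsupp.single n 1))| := by
  unfold Phi
  rw [← Real.norm_eq_abs]
  exact tsum_of_norm_bounded (summ f).hasSum (fun n => Phi_term_le f n s)

theorem slope_cont {Ψ : ℝ → ℝ} (hc : Continuous Ψ) {M : ℝ} (hM : ∀ s, |Ψ s| ≤ M) :
    Continuous (fun p : ℝ × ℝ => p.1 * Ψ (p.2 / p.1)) := by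
  rw [continuous_iff_continuousAt]
  intro p
  by_cases hp : p.1 = 0
  · have h0 : p.1 * Ψ (p.2 / p.1) = 0 := by rw [hp, zero_mul]
    change Filter.Tendsto (fun q : ℝ × ℝ => q.1 * Ψ (q.2 / q.1)) (nhds p)
      (nhds (p.1 * Ψ (p.2 / p.1)))
    rw [h0]
    refine squeeze_zero_norm (a := fun q : ℝ × ℝ => |q.1| * M) ?_ ?_
    · intro q
      rw [norm_mul, Real.norm_eq_abs, Real.norm_eq_abs]
      exact mul_le_mul_of_nonneg_left (hM _) (abs_nonneg _)
    · have : Continuous (fun q : ℝ × ℝ => |q.1| * M) := by fun_prop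
      have h := this.tendsto p
      rw [hp, abs_zero, zero_mul] at h
      exact h
  · exact continuousAt_fst.mul (hc.continuousAt.comp (continuousAt_snd.div continuousAt_fst hp))

theorem f_gamF (f : E →L[ℝ] ℝ) (a b : ℝ) : f (mk 0 0 (gamF a b)) = a * Phi f (b / a) := by
  have h1 : mk 0 0 (gamF a b) = ∑ n ∈ (gamF a b).support,
      (gam n a b) • mk 0 0 (Finsupp.single n 1) := by
    have : gamF a b = ∑ n ∈ (gamF a b).support, gam n a b • Finsupp.single n (1:ℝ) := by
      conv_lhs => rw [← Finsupp.sum_single (gamF a b)]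
      unfold Finsupp.sum
      refine Finset.sum_congr rfl fun n _ => ?_
      rw [Finsupp.smul_single, smul_eq_mul, mul_one, gamF_apply]
    conv_lhs => rw [this]
    rw [← emb_apply, map_sum]
    refine Finset.sum_congr rfl fun n _ => ?_
    rw [map_smul, emb_apply]
  rw [h1, map_sum]
  unfold Phi
  rw [← tsum_mul_left, tsum_eq_sum (s := (gamF a b).support)]
  · refine Finset.sum_congr rfl fun n _ => ?_
    rw [map_smul, smul_eq_mul]; unfold gam; ring
  · intro n hn
    have h2 : gam n a b = 0 := by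
      rw [← gamF_apply]; exact Finsupp.notMem_support_iff.mp hn
    unfold gam at h2
    rw [← mul_assoc, h2, zero_mul]

theorem f_proj (f : E →L[ℝ] ℝ) (x : E) :
    f (proj x) = f x - (cA x * f (mk 1 0 0) + cB x * f (mk 0 1 0)
      + cA x * Phi f (cB x / cA x)) := by
  have h : proj x = x - (cA x • mk 1 0 0 + cB x • mk 0 1 0 + mk 0 0 (gamF (cA x) (cB x))) := by
    refine E_ext ?_ ?_ ?_
    · simp [proj, cA_apply, cB_apply]
    · simp [proj, cA_apply, cB_apply]
    · simp [proj, cA_apply, cB_apply]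
  rw [h, map_sub, map_add, map_add, map_smul, map_smul, f_gamF, smul_eq_mul, smul_eq_mul]

theorem weak_cont : Continuous (fun x : WeakSpace ℝ E =>
    toWeakSpace ℝ E (proj ((toWeakSpace ℝ E).symm x))) := by
  apply WeakBilin.continuous_of_continuous_eval
  intro f
  have hev : ∀ g : E →L[ℝ] ℝ, Continuous (fun x : WeakSpace ℝ E => g ((toWeakSpace ℝ E).symm x)) :=
    fun g => WeakBilin.eval_continuous _ g
  have h1 : Continuous (fun x : WeakSpace ℝ E =>
      ((cA ((toWeakSpace ℝ E).symm x), cB ((toWeakSpace ℝ E).symm x)) : ℝ × ℝ)) :=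
    (hev cA).prodMk (hev cB)
  have h2 := (slope_cont (Phi_cont f) (Phi_bdd f)).comp h1
  have h3 : Continuous (fun x : WeakSpace ℝ E => f (proj ((toWeakSpace ℝ E).symm x))) := by
    simp only [f_proj]
    exact (hev f).sub ((((hev cA).mul continuous_const).add ((hev cB).mul continuous_const)).add h2)
  exact h3

theorem not_cont : ¬ Continuous proj := by
  intro hc
  have h1 := hc.tendsto (mk 1 0 0)
  set y : ℕ → E := fun n => mk 1 (4 / 2 ^ (n + 4)) 0 with hy
  have h2 : Filter.Tendsto y Filter.atTop (nhds (mk 1 0 0)) := by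
    rw [tendsto_iff_norm_sub_tendsto_zero]
    refine squeeze_zero (g := fun n : ℕ => 2 * (4 / 2 ^ (n + 4))) (fun _ => norm_nonneg _) ?_ ?_
    · intro n
      have e : y n - mk 1 0 0 = mk 0 (4 / 2 ^ (n + 4)) 0 := by
        refine E_ext ?_ ?_ ?_ <;> simp [hy]
      rw [e]
      apply norm_le_of
      intro i
      simp only [ev, ca_mk, cb_mk, cg_mk, mul_zero, zero_add, Finsupp.coe_zero, Pi.zero_apply,
        add_zero]
      rw [abs_mul, abs_of_pos (by positivity : (0:ℝ) < 4 / 2 ^ (n + 4))]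
      exact mul_le_mul_of_nonneg_right (e2_le i) (by positivity)
    · have h3 : Filter.Tendsto (fun n : ℕ => (1 / 2 : ℝ) ^ n) Filter.atTop (nhds 0) :=
        tendsto_pow_atTop_nhds_zero_of_lt_one (by norm_num) (by norm_num)
      have h4 := h3.const_mul (1 / 2)
      rw [mul_zero] at h4
      refine h4.congr fun n => ?_
      rw [pow_add, one_div_pow]; field_simp; norm_num
  have h5 := h1.comp h2
  rw [tendsto_iff_norm_sub_tendsto_zero] at h5
  have h6 : ∀ n, 1 ≤ ‖(proj ∘ y) n - proj (mk 1 0 0)‖ := by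
    intro n
    refine le_trans ?_ (ev_le_norm (admG n) _)
    have hg0 : gam n 1 0 = 0 := by unfold gam; rw [zero_div, Bn_zero]; ring
    have hg1 : gam n 1 (4 / 2 ^ (n + 4)) = 1 := by
      unfold gam Bn w
      rw [div_one]
      have : (2:ℝ) ^ (n + 4) * (4 / 2 ^ (n + 4)) - 4 = 0 := by field_simp; ring
      rw [this]; norm_num
    have e : ev (admG n) ((proj ∘ y) n - proj (mk 1 0 0)) = -1 := by
      simp only [ev, admG, map_sub, Function.comp, hy, proj, ca_mk, cb_mk, cg_mk,
        Finsupp.sub_apply, gamF_apply, Finsupp.coe_zero, Pi.zero_apply, hg0, hg1]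
      norm_num
    rw [e]; norm_num
  have h7 := ge_of_tendsto' h5 h6
  linarith

/-- There are a real normed space `E`, a Chebyshev set `G` (in fact a linear subspace of
codimension two) and its metric projection `π` which is weakly continuous but not norm
continuous. -/
theorem result :
    ∃ (E : Type) (_ : NormedAddCommGroup E) (_ : NormedSpace ℝ E) (G : Set E) (π : E → E),
      (∀ x, π x ∈ G ∧ ∀ g ∈ G, g ≠ π x → ‖x - π x‖ < ‖x - g‖) ∧
      Continuous (fun x : WeakSpace ℝ E =>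
        toWeakSpace ℝ E (π ((toWeakSpace ℝ E).symm x))) ∧
      ¬ Continuous π :=
  ⟨E, inferInstance, inferInstance, G, proj,
    fun x => ⟨proj_mem x, fun _ hg hne => cheb x hg hne⟩, weak_cont, not_cont⟩

end Pool.Agent.Results.MP_97ba4e_an.WeakNotNorm
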